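import Pool.Agent.Run7.h201.CTR.SemW

set_option autoImplicit false

/-!
# Wreath products acting on additively coloured trees

Let `G` be a Polish group and `X` a Borel `G`-space. The wreath product `G ≀ Sym(ℕ)` (the semidirect
product of `G ^ ℕ` and `Sym(ℕ)`, a Polish group) acts on the pairs of a structure with universe `ℕ`
and a sequence of points of `X`, the labels of the elements. We prove the countable-or-perfect
dichotomy for the invariant Borel sets of labelled trees with additive colourings, if the
dichotomy holds for the invariant Borel sets of points of `X` that are used as labels. For trivial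
`G` the labels are countably many unary predicates, and the theorem is about the logic action of
`Sym(ℕ)`, without any hypothesis.

The structures are trees (not necessarily well-founded partial orders in which the predecessors of
each element are linearly ordered and two elements with a common lower bound have a greatest one;
for instance linear orders) with countably many additive colourings in countable semigroups `M j`:
to each pair `a < b` an element `c a b` of `M j` is assigned such that `c a d = c a b * c b d` for
`a < b < d`. All but finitely many of the semigroups are cancellative, for instance groups or free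
semigroups, while the others are finite, or cancellative, or stable with the ascending chain
condition on principal ideals (for instance, all countable completely simple semigroups). There
are no conditions on the subgroups of the semigroups.

The starting result `MP_4d1b73_lc.AdditiveColourings` is about linear orders and aperiodic monoids.
The proof uses the theorem on coherent trees (`CTR.dich2`, see also `MP_4d1b73_lc.CoherentTrees`);
one has to find points which decide the colours over a cut of a branch. The passage to labels in `X`
is the theorem on labelled structures of the starting tree (`Pool.Agent.N649.WL.main`).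
-/

namespace Pool.Agent.Results.MP_5607ba_lc.AdditiveTreeColourings

/-- `V` meets countably many classes of `R`, or there is a Borel map from the Cantor space to `V`
with pairwise `R`-inequivalent values. -/
def Dichotomy {Y : Type} [MeasurableSpace Y] (R : Y → Y → Prop) (V : Set Y) : Prop :=
  (∃ S ⊆ V, S.Countable ∧ ∀ y ∈ V, ∃ z ∈ S, R y z) ∨
    ∃ f : (ℕ → Bool) → Y, Measurable f ∧ (∀ b, f b ∈ V) ∧ ∀ b b', b ≠ b' → ¬ R (f b) (f b')

/-- Every `R`-invariant Borel set contained in `Z` satisfies the dichotomy. -/
def Dichotomic {Y : Type} [MeasurableSpace Y] (R : Y → Y → Prop) (Z : Set Y) : Prop :=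
  ∀ C : Set Y, MeasurableSet C → C ⊆ Z → (∀ y ∈ C, ∀ z, R y z → z ∈ C) → Dichotomy R C

/-- `x` and `x'` are in the same orbit of `G`. -/
def Orbit (G : Type) {X : Type} [SMul G X] (x x' : X) : Prop := ∃ g : G, g • x = x'

/-- Structures on `ℕ` with an order `x.1` and for each `j ∈ ℕ` and each `s : M j` a binary relation
`x.2 j s` (the pairs which have the colour `s` in the `j`-th colouring). -/
abbrev Coloured (M : ℕ → Type) : Type := (ℕ → ℕ → Bool) × (∀ j, M j → ℕ → ℕ → Bool)

/-- `p` and `q` are in the same orbit of the wreath product of `G` and `Sym(ℕ)`, which acts on the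
pairs of a structure and a sequence of points of `X`: some permutation `σ` is an isomorphism of the
structures such that the labels of `a` and `σ a` are in the same orbit of `G`, for all `a`. -/
def WreathOrbit (G : Type) {X : Type} [SMul G X] {M : ℕ → Type}
    (p q : Coloured M × (ℕ → X)) : Prop :=
  ∃ (σ : Equiv.Perm ℕ) (g : ℕ → G),
    (∀ a b, q.1.1 (σ a) (σ b) = p.1.1 a b) ∧
    (∀ j s a b, q.1.2 j s (σ a) (σ b) = p.1.2 j s a b) ∧
    ∀ a, q.2 (σ a) = g a • p.2 a

/-- `x.1` is a strict tree order in which two elements with a common lower bound have a greatest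
common lower bound, and for each `j` the relations `x.2 j s` describe an additive colouring in `M j`
of the pairs `a < b`. -/
structure AdditiveTree {M : ℕ → Type} [∀ j, Semigroup (M j)] (x : Coloured M) : Prop where
  irrefl : ∀ a, x.1 a a = false
  trans : ∀ a b c, x.1 a b = true → x.1 b c = true → x.1 a c = true
  tree : ∀ a b c, x.1 a c = true → x.1 b c = true → x.1 a b = true ∨ a = b ∨ x.1 b a = true
  meet : ∀ a b c, (c = a ∨ x.1 c a = true) → (c = b ∨ x.1 c b = true) →
    ∃ d, (d = a ∨ x.1 d a = true) ∧ (d = b ∨ x.1 d b = true) ∧
      ∀ e, (e = a ∨ x.1 e a = true) → (e = b ∨ x.1 e b = true) → (e = d ∨ x.1 e d = true)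
  additive : ∀ j, ∃ c : ℕ → ℕ → M j, (∀ s a b, x.2 j s a b = true ↔ x.1 a b = true ∧ c a b = s) ∧
    ∀ a b d, x.1 a b = true → x.1 b d = true → c a d = c a b * c b d

/-- The semigroup is cancellative on both sides. -/
def Cancellative (S : Type) [Semigroup S] : Prop :=
  (∀ a b c : S, a * b = a * c → b = c) ∧ ∀ a b c : S, a * c = b * c → a = b

/-- `a` is in the two-sided ideal generated by `b`. -/
def InIdeal {S : Type} [Semigroup S] (a b : S) : Prop :=
  a = b ∨ (∃ u, a = u * b) ∨ (∃ v, a = b * v) ∨ ∃ u v, a = u * b * v

/-- The semigroup is stable and has the ascending chain condition on principal two-sided ideals. -/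
structure StableAcc (S : Type) [Semigroup S] : Prop where
  acc : ∀ s : ℕ → S, (∀ n, InIdeal (s n) (s (n + 1))) → ∃ n, InIdeal (s (n + 1)) (s n)
  right : ∀ a b : S, InIdeal a (a * b) → a = a * b ∨ ∃ u, a = a * b * u
  left : ∀ a b : S, InIdeal b (a * b) → b = a * b ∨ ∃ u, b = u * (a * b)

open Pool.Agent.Run7.h201.CTR.SEM Pool.Agent.N649.WL in
theorem result (G X : Type) [TopologicalSpace G] [Group G] [IsTopologicalGroup G] [PolishSpace G]
    [MeasurableSpace G] [BorelSpace G] [MeasurableSpace X] [StandardBorelSpace X]
    [MulAction G X] [MeasurableSMul₂ G X] (Z : Set X) (hZ : Dichotomic (Orbit G) Z)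
    (M : ℕ → Type) [∀ j, Semigroup (M j)] [∀ j, Countable (M j)] (n : ℕ)
    (h1 : ∀ j < n, Finite (M j) ∨ Cancellative (M j) ∨ StableAcc (M j))
    (h2 : ∀ j ≥ n, Cancellative (M j)) :
    Dichotomic (WreathOrbit G)
      {p : Coloured M × (ℕ → X) | AdditiveTree p.1 ∧ ∀ a, p.2 a ∈ Z} := by
  let _ := upgradeStandardBorel X
  intro A hA hAK hinv
  have e : ∀ p q : Coloured M × (ℕ → X), LE IsoC (Orb G) p q ↔ WreathOrbit G p q := by
    intro p q
    constructor
    · rintro ⟨σ, ⟨k1, k2⟩, k3⟩
      choose g hg using k3
      exact ⟨σ, g, k1, k2, fun a => (hg a).symm⟩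
    · rintro ⟨σ, g, k1, k2, k3⟩
      exact ⟨σ, ⟨k1, k2⟩, fun a => ⟨g a, (k3 a).symm⟩⟩
  refine dc_congr e ?_
  refine labelled n (fun j hj => ?_) h2 (orb_equiv G) (orb_ana G) Z (fun C k1 k2 k3 => hZ C k1 k2 k3)
    hA (fun p hp => ?_) (fun p hp => (hAK hp).2)
    (fun p hp q h => hinv p hp q ((e p q).1 h))
  · rcases h1 j hj with k1 | k1 | k1
    · exact Or.inl k1
    · exact Or.inr (Or.inl k1)
    · exact Or.inr (Or.inr ⟨k1.acc, k1.right, k1.left⟩)
  · have h := (hAK hp).1
    refine ⟨⟨fun a ha => ?_, h.trans, h.tree, h.meet⟩, fun j => ?_⟩
    · rw [h.irrefl] at ha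
      exact absurd ha (by simp)
    · obtain ⟨c, k1, k2⟩ := h.additive j
      exact ⟨c, k2, k1⟩

end Pool.Agent.Results.MP_5607ba_lc.AdditiveTreeColourings
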