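import Pool.Agent.Run7.h46.V.Fin2
import Pool.Agent.Run7.h787.V.V2
import Pool.Agent.Run7.h787.V.V3
import Pool.Agent.Run7.h921.h46_V4
import Pool.Agent.Run7.h921.h46_V6
import Pool.Agent.Run7.h921.h46_V7
import Pool.Agent.Run7.h930.V.V1
import Pool.Agent.Run7.h930.V.V5
import Pool.Agent.Run7.h930.V.V8

/-! MP_5607ba_lc: the countable-or-perfect dichotomy for Borel (even analytic) hereditary classes
of graphs and of structures with unary and binary relations (the group is the group of all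
permutations of ℕ). -/

namespace Pool.Agent.Results.MP_5607ba_lc.BorelHereditaryGraphs

open FirstOrder FirstOrder.Language MeasureTheory

variable {L : FirstOrder.Language.{0, 0}}

/-- The space of `L`-structures on `ℕ` (`L` relational): the structure is coded by the truth
values of its atomic facts; product topology. -/
abbrev Code (L : FirstOrder.Language.{0, 0}) : Type :=
  (Σ n, L.Relations n × (Fin n → ℕ)) → Bool

/-- the structure with the given code -/
@[reducible] def str [L.IsRelational] (x : Code L) : L.Structure ℕ where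
  funMap := fun f _ => isEmptyElim f
  RelMap := fun {n} R v => x ⟨n, R, v⟩ = true

/-- Pull back along `f : ℕ → ℕ`. For permutations this is the logic action of `Sym(ℕ)` (from the
right); for injective `f` it is the code of a structure isomorphic to the substructure with
universe `range f`. -/
def pull (f : ℕ → ℕ) (x : Code L) : Code L := fun p => x ⟨p.1, p.2.1, f ∘ p.2.2⟩

/-- closed under pulling back along injections, i.e. under isomorphisms and infinite
substructures -/
def Hereditary (𝒞 : Set (Code L)) : Prop :=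
  ∀ x ∈ 𝒞, ∀ f : ℕ → ℕ, Function.Injective f → pull f x ∈ 𝒞

/-- Every member that is invariant under all increasing maps `ℕ → ℕ` is invariant under all
permutations of `ℕ`. -/
def NoOrderedChain (𝒞 : Set (Code L)) : Prop :=
  ∀ x ∈ 𝒞, (∀ f : ℕ → ℕ, StrictMono f → pull f x = x) → ∀ e : Equiv.Perm ℕ, pull e x = x

/-- all binary relations of the structure are symmetric -/
def SymmetricRelations (x : Code L) : Prop :=
  ∀ (R : L.Relations 2) (v : Fin 2 → ℕ), x ⟨2, R, v⟩ = x ⟨2, R, ![v 1, v 0]⟩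

/-- `𝒞` meets only countably many orbits of `Sym(ℕ)`, and all its members are cellular. -/
def CountableCellular [L.IsRelational] (𝒞 : Set (Code L)) : Prop :=
  (∃ g : ℕ → Code L, ∀ x ∈ 𝒞, ∃ n, ∃ e : Equiv.Perm ℕ, pull e (g n) = x) ∧
    ∀ x ∈ 𝒞, @Run7.h46.IsCellular L ℕ (str x)

/-- There is a Cantor set of members of `𝒞` in pairwise different orbits of `Sym(ℕ)`. -/
def PerfectlyManyOrbits (𝒞 : Set (Code L)) : Prop :=
  ∃ f : (ℕ → Bool) → Code L, Continuous f ∧ (∀ b, f b ∈ 𝒞) ∧
    ∀ b b', b ≠ b' → ¬ ∃ e : Equiv.Perm ℕ, pull e (f b') = f b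

/-- the structures isomorphic to infinite substructures of `x` -/
def Substructures (x : Code L) : Set (Code L) :=
  {y | ∃ f : ℕ → ℕ, Function.Injective f ∧ y = pull f x}

open Run7.h46 Run7.h46.U Run7.h46.V in
theorem dec_injective {x y : Code L} (h : dec x = dec y) : x = y := by
  funext p
  have h5 := congrFun (congrFun h ⟨p.1, p.2.1⟩) p.2.2
  have h6 : (x p = true) = (y p = true) := h5
  exact Bool.eq_iff_iff.2 (iff_of_eq h6)

open Run7.h46 Run7.h46.U Run7.h46.V in
theorem mem_dec {𝒞 : Set (Code L)} : {x : Pt L | dec x ∈ dec '' 𝒞} = 𝒞 := by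
  ext x
  constructor
  · rintro ⟨y, hy, hyx⟩
    exact dec_injective hyx ▸ hy
  · exact fun hx => ⟨x, hx, rfl⟩

open Run7.h46 Run7.h46.U Run7.h46.V in
theorem part1 [L.IsRelational] [Countable (Σ n, L.Relations n)]
    (hr : ∀ R : (Σ n, L.Relations n), R.1 ≤ 2) {𝒞 : Set (Code L)} (hA : AnalyticSet 𝒞)
    (hH : Hereditary 𝒞) (hN : NoOrderedChain 𝒞) :
    CountableCellular 𝒞 ∨ PerfectlyManyOrbits 𝒞 := by
  have h1 : Hered (dec '' 𝒞) := by
    rintro _ ⟨x, hx, rfl⟩ f hf
    exact ⟨pull f x, hH x hx f hf, rfl⟩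
  have h2 : NoChain (dec '' 𝒞) := by
    rintro _ ⟨x, hx, rfl⟩ h g
    have h3 := hN x hx (fun f hf => dec_injective (h f hf)) g
    exact congrArg dec h3
  have h3 : AnalyticSet {x : Pt L | dec x ∈ dec '' 𝒞} := by
    rw [mem_dec]
    exact hA
  have hV7 := Run7.h921.V7.main Run7.h930.V.main_V1
  have hV8 := Run7.h930.V.main_V8 Run7.h787.V2.main
  rcases main_bin Run7.h787.V3.main Run7.h921.V4.main Run7.h930.V.main_V5 Run7.h921.V6.main
    hV7 hV8 hr h1 h2 h3 with ⟨⟨g, hg⟩, h⟩ | ⟨f, f1, f2, f3⟩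
  · left
    refine ⟨⟨fun n => enc (g n), fun x hx => ?_⟩, fun x hx => h (dec x) ⟨x, hx, rfl⟩⟩
    obtain ⟨n, e, he⟩ := hg (dec x) ⟨x, hx, rfl⟩
    refine ⟨n, e, ?_⟩
    funext p
    have h3 : (x p = true) ↔ g n ⟨p.1, p.2.1⟩ (e ∘ p.2.2) := he ⟨p.1, p.2.1⟩ p.2.2
    rw [Bool.eq_iff_iff, h3]
    exact iff_of_eq (congrFun (congrFun (dec_enc (g n)) ⟨p.1, p.2.1⟩) (e ∘ p.2.2))
  · right
    refine ⟨f, f1, fun b => ?_, fun b b' hbb => ?_⟩
    · obtain ⟨y, hy, hyb⟩ := f2 b
      exact dec_injective hyb ▸ hy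
    · rintro ⟨e, he⟩
      refine f3 b b' hbb ⟨e, fun R v => ?_⟩
      rw [← he]
      exact Iff.rfl

theorem part3 (hr : ∀ R : (Σ n, L.Relations n), R.1 ≤ 2) {𝒞 : Set (Code L)}
    (hS : ∀ x ∈ 𝒞, SymmetricRelations x) : NoOrderedChain 𝒞 := by
  intro x hx h e
  have key : ∀ (a b a' b' : ℕ) (n : ℕ) (R : L.Relations n) (q : Fin n → Fin 2), a < b → a' < b' →
      x ⟨n, R, ![b, a] ∘ q⟩ = x ⟨n, R, ![b', a'] ∘ q⟩ := by
    have h0 : ∀ (a b : ℕ) (n : ℕ) (R : L.Relations n) (q : Fin n → Fin 2), a < b →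
        x ⟨n, R, ![1, 0] ∘ q⟩ = x ⟨n, R, ![b, a] ∘ q⟩ := by
      intro a b n R q hab
      let f : ℕ → ℕ := fun k => if k = 0 then a else b + (k - 1)
      have hf : StrictMono f := by
        intro i j hij
        simp only [f]
        split_ifs <;> omega
      have h1 := congrFun (h f hf) ⟨n, R, ![1, 0] ∘ q⟩
      have h2 : f ∘ ![1, 0] ∘ q = ![b, a] ∘ q := by
        funext k
        simp only [Function.comp_apply]
        generalize q k = s
        fin_cases s
        · simp [f]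
        · simp [f]
      rw [← h1]
      show x ⟨n, R, f ∘ ![1, 0] ∘ q⟩ = _
      rw [h2]
    intro a b a' b' n R q hab hab'
    rw [← h0 a b n R q hab, ← h0 a' b' n R q hab']
  funext ⟨n, R, v⟩
  show x ⟨n, R, e ∘ v⟩ = x ⟨n, R, v⟩
  obtain ⟨i, j, hij, q, rfl⟩ := Run7.h46.V.exists_pair (hr ⟨n, R⟩) v
  have h3 : (e : ℕ → ℕ) ∘ ![j, i] ∘ q = ![e j, e i] ∘ q := by
    funext k
    simp only [Function.comp_apply]
    generalize q k = s
    fin_cases s <;> rfl
  rw [h3]
  rcases lt_or_gt_of_ne (e.injective.ne hij.ne) with h4 | h4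
  · exact key _ _ _ _ n R q h4 hij
  · -- the values are swapped
    have h5 : ![e j, e i] ∘ q = ![e i, e j] ∘ (![1, 0] ∘ q) := by
      funext k
      simp only [Function.comp_apply]
      generalize q k = s
      fin_cases s <;> rfl
    have h6 : x ⟨n, R, ![j, i] ∘ (![1, 0] ∘ q)⟩ = x ⟨n, R, ![j, i] ∘ q⟩ := by
      have hn : n ≤ 2 := hr ⟨n, R⟩
      interval_cases n
      · congr 3
        funext k
        exact k.elim0
      · -- unary relations are constant
        have h7 : ∀ a b : ℕ, x ⟨1, R, fun _ => a⟩ = x ⟨1, R, fun _ => b⟩ := by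
          have h8 : ∀ b : ℕ, x ⟨1, R, fun _ => b⟩ = x ⟨1, R, fun _ => 0⟩ := fun b =>
            congrFun (h (fun k => k + b) (fun i j hij => by simpa using hij)) ⟨1, R, fun _ => 0⟩ |>
              fun h9 => by
                have h10 : (fun k => k + b) ∘ (fun _ : Fin 1 => 0) = fun _ => b := by
                  funext k
                  simp
                have h11 : x ⟨1, R, (fun k => k + b) ∘ (fun _ : Fin 1 => 0)⟩ =
                  x ⟨1, R, fun _ => 0⟩ := h9
                rw [h10] at h11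
                exact h11
          intro a b
          rw [h8 a, h8 b]
        have h8 : ∀ w : Fin 1 → ℕ, w = fun _ => w 0 := fun w => by
          funext k
          fin_cases k
          rfl
        rw [h8 (![j, i] ∘ (![1, 0] ∘ q)), h8 (![j, i] ∘ q)]
        exact h7 _ _
      · -- binary relations
        have h7 : ∀ w : Fin 2 → Fin 2, x ⟨2, R, ![j, i] ∘ (![1, 0] ∘ w)⟩ =
            x ⟨2, R, ![j, i] ∘ w⟩ := by
          intro w
          have hd : ∀ a b : ℕ, x ⟨2, R, fun _ => a⟩ = x ⟨2, R, fun _ => b⟩ := by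
            have h8 : ∀ b : ℕ, x ⟨2, R, fun _ => b⟩ = x ⟨2, R, fun _ => 0⟩ := fun b => by
              have h9 := congrFun (h (fun k => k + b) (fun i j hij => by simpa using hij))
                ⟨2, R, fun _ => 0⟩
              have h10 : (fun k => k + b) ∘ (fun _ : Fin 2 => 0) = fun _ => b := by
                funext k
                simp
              have h11 : x ⟨2, R, (fun k => k + b) ∘ (fun _ : Fin 2 => 0)⟩ =
                x ⟨2, R, fun _ => 0⟩ := h9
              rw [h10] at h11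
              exact h11
            intro a b
            rw [h8 a, h8 b]
          have hsw : ∀ a b : ℕ, x ⟨2, R, ![a, b]⟩ = x ⟨2, R, ![b, a]⟩ := fun a b =>
            hS x hx R ![a, b]
          have e0 : ∀ w' : Fin 2 → ℕ, w' = ![w' 0, w' 1] := fun w' => by
            funext k
            fin_cases k <;> rfl
          rw [e0 (![j, i] ∘ (![1, 0] ∘ w)), e0 (![j, i] ∘ w)]
          simp only [Function.comp_apply]
          have hc : ∀ a : ℕ, (![a, a] : Fin 2 → ℕ) = fun _ => a := fun a => by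
            funext k
            fin_cases k <;> rfl
          generalize w 0 = s
          generalize w 1 = t
          fin_cases s <;> fin_cases t
          · show x ⟨2, R, ![i, i]⟩ = x ⟨2, R, ![j, j]⟩
            rw [hc, hc]
            exact hd _ _
          · exact hsw i j
          · exact hsw j i
          · show x ⟨2, R, ![j, j]⟩ = x ⟨2, R, ![i, i]⟩
            rw [hc, hc]
            exact hd _ _
        exact h7 q
    rw [h5, key _ _ _ _ n R _ h4 hij]
    exact h6

open Run7.h46 Run7.h46.U Run7.h46.V in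
theorem part2 [L.IsRelational] [Countable (Σ n, L.Relations n)] (x : Code L) :
    AnalyticSet (Substructures x) ∧ Hereditary (Substructures x) := by
  constructor
  · have h1 : {y : Pt L | dec y ∈ Subs (dec x)} = Substructures x := by
      ext y
      constructor
      · rintro ⟨f, hf, hfy⟩
        exact ⟨f, hf, dec_injective hfy⟩
      · rintro ⟨f, hf, rfl⟩
        exact ⟨f, hf, rfl⟩
    rw [← h1]
    exact analytic_subs x
  · rintro _ ⟨f, hf, rfl⟩ g hg
    exact ⟨f ∘ g, hf.comp hg, rfl⟩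

/-- the code of a graph on `ℕ`: its adjacency matrix -/
noncomputable def matrix (G : SimpleGraph ℕ) : ℕ × ℕ → Bool :=
  fun p => @decide (G.Adj p.1 p.2) (Classical.propDecidable _)

/-- the language with one binary relation symbol -/
def gl : FirstOrder.Language.{0, 0} := ⟨fun _ => Empty, fun n => PLift (n = 2)⟩

instance : gl.IsRelational := fun _ => inferInstanceAs (IsEmpty Empty)

theorem countable_gl : Countable (Σ n, gl.Relations n) := by
  have : ∀ n, Countable (gl.Relations n) := fun n => by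
    have : Subsingleton (gl.Relations n) := ⟨fun a b => by
      cases a
      cases b
      rfl⟩
    infer_instance
  infer_instance

/-- from matrices to codes -/
def toC (x : ℕ × ℕ → Bool) : Code gl := fun p =>
  x (p.2.2 (Fin.cast p.2.1.down.symm 0), p.2.2 (Fin.cast p.2.1.down.symm 1))

/-- from codes to matrices -/
def ofC (x : Code gl) : ℕ × ℕ → Bool := fun p => x ⟨2, ⟨rfl⟩, ![p.1, p.2]⟩

theorem of_to (x : ℕ × ℕ → Bool) : ofC (toC x) = x := rfl

theorem to_of (x : Code gl) : toC (ofC x) = x := by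
  funext ⟨n, ⟨h⟩, v⟩
  subst h
  show x ⟨2, ⟨rfl⟩, ![v 0, v 1]⟩ = x ⟨2, ⟨rfl⟩, v⟩
  congr 3
  funext k
  fin_cases k <;> rfl

theorem continuous_toC : Continuous toC :=
  continuous_pi fun p => continuous_apply (_ : ℕ × ℕ)

theorem continuous_ofC : Continuous ofC :=
  continuous_pi fun p => continuous_apply (_ : Σ n, gl.Relations n × (Fin n → ℕ))

theorem matrix_comap (G : SimpleGraph ℕ) (f : ℕ → ℕ) :
    toC (matrix (G.comap f)) = pull f (toC (matrix G)) := rfl

theorem matrix_iff (G : SimpleGraph ℕ) (a b : ℕ) : matrix G (a, b) = true ↔ G.Adj a b :=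
  @decide_eq_true_iff _ (Classical.propDecidable _)

theorem iso_iff (G H : SimpleGraph ℕ) :
    (∃ e : Equiv.Perm ℕ, pull e (toC (matrix G)) = toC (matrix H)) ↔ Nonempty (H ≃g G) := by
  constructor
  · rintro ⟨e, he⟩
    refine ⟨⟨e, fun {a b} => ?_⟩⟩
    have h1 : matrix G (e a, e b) = matrix H (a, b) :=
      congrFun (congrArg ofC he) (a, b)
    rw [← matrix_iff, ← matrix_iff, h1]
  · rintro ⟨e⟩
    refine ⟨e.toEquiv, ?_⟩
    rw [← matrix_comap]
    congr 2
    ext a b
    exact e.map_adj_iff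

/-- **Graphs.** -/
theorem part4 (𝒢 : Set (SimpleGraph ℕ)) (hA : AnalyticSet (matrix '' 𝒢))
    (hH : ∀ G ∈ 𝒢, ∀ f : ℕ → ℕ, Function.Injective f → G.comap f ∈ 𝒢) :
    (∃ g : ℕ → SimpleGraph ℕ, ∀ G ∈ 𝒢, ∃ n, Nonempty (G ≃g g n)) ∨
    ∃ f : (ℕ → Bool) → SimpleGraph ℕ, Continuous (fun b => matrix (f b)) ∧ (∀ b, f b ∈ 𝒢) ∧
      ∀ b b', b ≠ b' → ¬ Nonempty (f b ≃g f b') := by
  have hc := countable_gl
  have hr : ∀ R : (Σ n, gl.Relations n), R.1 ≤ 2 := fun R => R.2.down.le
  have h1 : AnalyticSet (toC '' (matrix '' 𝒢)) := hA.image_of_continuous continuous_toC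
  have h2 : Hereditary (toC '' (matrix '' 𝒢)) := by
    rintro _ ⟨_, ⟨G, hG, rfl⟩, rfl⟩ f hf
    exact ⟨_, ⟨G.comap f, hH G hG f hf, rfl⟩, matrix_comap G f⟩
  have h3 : NoOrderedChain (toC '' (matrix '' 𝒢)) := by
    refine part3 hr ?_
    rintro _ ⟨_, ⟨G, hG, rfl⟩, rfl⟩ ⟨R⟩ v
    show matrix G (v 0, v 1) = matrix G (v 1, v 0)
    rw [Bool.eq_iff_iff, matrix_iff, matrix_iff]
    exact G.adj_comm _ _
  rcases part1 hr h1 h2 h3 with ⟨⟨g, hg⟩, -⟩ | ⟨f, f1, f2, f3⟩
  · left
    classical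
    let g' : ℕ → SimpleGraph ℕ := fun n =>
      if h : ∃ G : SimpleGraph ℕ, toC (matrix G) = g n then h.choose else ⊥
    refine ⟨g', fun G hG => ?_⟩
    obtain ⟨n, e, he⟩ := hg _ ⟨_, ⟨G, hG, rfl⟩, rfl⟩
    have h5 : ∃ G : SimpleGraph ℕ, toC (matrix G) = g n := by
      refine ⟨G.comap e.symm, ?_⟩
      rw [matrix_comap, ← he]
      funext p
      show g n ⟨p.1, p.2.1, e ∘ (e.symm ∘ p.2.2)⟩ = g n p
      rw [← Function.comp_assoc]
      simp
    have h6 : toC (matrix (g' n)) = g n := by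
      simp only [g', dif_pos h5]
      exact h5.choose_spec
    exact ⟨n, (iso_iff _ _).1 ⟨e, by rw [h6]; exact he⟩⟩
  · right
    have h5 : ∀ b, ∃ G ∈ 𝒢, toC (matrix G) = f b := fun b => by
      obtain ⟨_, ⟨G, hG, rfl⟩, hGb⟩ := f2 b
      exact ⟨G, hG, hGb⟩
    choose F hF1 hF2 using h5
    refine ⟨F, ?_, hF1, fun b b' hbb hne => f3 b b' hbb ?_⟩
    · have h6 : (fun b => matrix (F b)) = fun b => ofC (f b) := by
        funext b
        rw [← hF2, of_to]
      rw [h6]
      exact continuous_ofC.comp f1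
    · rw [← hF2, ← hF2]
      exact (iso_iff _ _).2 hne

/-- **One graph.** -/
theorem part5 (G : SimpleGraph ℕ) :
    (∃ g : ℕ → SimpleGraph ℕ, ∀ f : ℕ → ℕ, Function.Injective f →
      ∃ n, Nonempty (G.comap f ≃g g n)) ∨
    ∃ f : (ℕ → Bool) → SimpleGraph ℕ, Continuous (fun b => matrix (f b)) ∧
      (∀ b, ∃ h : ℕ → ℕ, Function.Injective h ∧ f b = G.comap h) ∧
      ∀ b b', b ≠ b' → ¬ Nonempty (f b ≃g f b') := by
  have hc := countable_gl
  let 𝒢 : Set (SimpleGraph ℕ) := {H | ∃ f : ℕ → ℕ, Function.Injective f ∧ H = G.comap f}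
  have h1 : matrix '' 𝒢 = ofC '' (Substructures (toC (matrix G))) := by
    ext x
    constructor
    · rintro ⟨_, ⟨f, hf, rfl⟩, rfl⟩
      exact ⟨_, ⟨f, hf, rfl⟩, rfl⟩
    · rintro ⟨_, ⟨f, hf, rfl⟩, rfl⟩
      exact ⟨_, ⟨f, hf, rfl⟩, rfl⟩
  have h2 : AnalyticSet (matrix '' 𝒢) := by
    rw [h1]
    exact (part2 _).1.image_of_continuous continuous_ofC
  rcases part4 𝒢 h2 (by
    rintro _ ⟨f, hf, rfl⟩ g hg
    exact ⟨f ∘ g, hf.comp hg, rfl⟩) with ⟨g, hg⟩ | h
  · exact Or.inl ⟨g, fun f hf => hg _ ⟨f, hf, rfl⟩⟩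
  · exact Or.inr h

/-- Let `L` be a countable relational language with relation symbols of arity at most 2.
(1) A hereditary analytic (for example Borel) class without ordered chains meets countably many
orbits, and all its members are cellular, or contains a Cantor set of members in different orbits.
(2) The same for the class of the substructures of one structure. (3) Classes of structures with
symmetric relations have no ordered chains. (4) Graphs. (5) Induced subgraphs of one graph. -/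
theorem result :
    (∀ (L : FirstOrder.Language.{0, 0}) [L.IsRelational] [Countable (Σ n, L.Relations n)],
      (∀ R : (Σ n, L.Relations n), R.1 ≤ 2) →
      (∀ 𝒞 : Set (Code L), AnalyticSet 𝒞 → Hereditary 𝒞 → NoOrderedChain 𝒞 →
        CountableCellular 𝒞 ∨ PerfectlyManyOrbits 𝒞) ∧
      (∀ x : Code L, NoOrderedChain (Substructures x) →
        CountableCellular (Substructures x) ∨ PerfectlyManyOrbits (Substructures x)) ∧
      (∀ 𝒞 : Set (Code L), (∀ x ∈ 𝒞, SymmetricRelations x) → NoOrderedChain 𝒞)) ∧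
    (∀ 𝒢 : Set (SimpleGraph ℕ), AnalyticSet (matrix '' 𝒢) →
      (∀ G ∈ 𝒢, ∀ f : ℕ → ℕ, Function.Injective f → G.comap f ∈ 𝒢) →
      (∃ g : ℕ → SimpleGraph ℕ, ∀ G ∈ 𝒢, ∃ n, Nonempty (G ≃g g n)) ∨
      ∃ f : (ℕ → Bool) → SimpleGraph ℕ, Continuous (fun b => matrix (f b)) ∧ (∀ b, f b ∈ 𝒢) ∧
        ∀ b b', b ≠ b' → ¬ Nonempty (f b ≃g f b')) ∧
    (∀ G : SimpleGraph ℕ,
      (∃ g : ℕ → SimpleGraph ℕ, ∀ f : ℕ → ℕ, Function.Injective f →
        ∃ n, Nonempty (G.comap f ≃g g n)) ∨
      ∃ f : (ℕ → Bool) → SimpleGraph ℕ, Continuous (fun b => matrix (f b)) ∧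
        (∀ b, ∃ h : ℕ → ℕ, Function.Injective h ∧ f b = G.comap h) ∧
        ∀ b b', b ≠ b' → ¬ Nonempty (f b ≃g f b')) :=
  ⟨fun L _ _ hr => ⟨fun _ h1 h2 h3 => part1 hr h1 h2 h3,
    fun x h => part1 hr (part2 x).1 (part2 x).2 h, fun _ h => part3 hr h⟩, part4, part5⟩

end Pool.Agent.Results.MP_5607ba_lc.BorelHereditaryGraphs
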