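import Pool.Agent.Run7.h46.U.Univ

/-! MP_5607ba_lc: the countable-or-perfect dichotomy for hereditary classes of relational
structures of bounded arity (the group is the group of all permutations of ℕ). -/

namespace Pool.Agent.Results.MP_5607ba_lc.HereditaryClasses

open FirstOrder FirstOrder.Language

variable {L : FirstOrder.Language.{0, 0}}

/-- The space of `L`-structures on `ℕ` (`L` relational): the structure is coded by the truth
values of its atomic facts; product topology and product (= Borel) σ-algebra. -/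
abbrev Code (L : FirstOrder.Language.{0, 0}) : Type :=
  (Σ n, L.Relations n × (Fin n → ℕ)) → Bool

/-- the structure with the given code -/
@[reducible] def str [L.IsRelational] (x : Code L) : L.Structure ℕ where
  funMap := fun f _ => isEmptyElim f
  RelMap := fun {n} R v => x ⟨n, R, v⟩ = true

/-- Pull back along `f : ℕ → ℕ`. For permutations this is the logic action of `Sym(ℕ)` (from the
right); for injective `f` it is the code of a structure isomorphic to the substructure with
universe `range f`. -/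
def pull (f : ℕ → ℕ) (x : Code L) : Code L := fun p => x ⟨p.1, p.2.1, f ∘ p.2.2⟩

/-- closed under pulling back along injections -/
def Hereditary (𝒞 : Set (Code L)) : Prop :=
  ∀ x ∈ 𝒞, ∀ f : ℕ → ℕ, Function.Injective f → pull f x ∈ 𝒞

/-- The finite sublanguage with the relation symbols in `s`. -/
def sublanguage (s : Finset (Σ n, L.Relations n)) : FirstOrder.Language.{0, 0} :=
  ⟨fun _ => Empty, fun n => {R : L.Relations n // (⟨n, R⟩ : Σ n, L.Relations n) ∈ s}⟩

/-- the reduct of the structure coded by `x` to the finite sublanguage -/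
@[reducible] def reduct (s : Finset (Σ n, L.Relations n)) (x : Code L) :
    (sublanguage s).Structure ℕ where
  funMap := fun f _ => (f : Empty).elim
  RelMap := fun {n} R v => x ⟨n, R.1, v⟩ = true

/-- There is a Cantor set of members of `𝒞` which are pairwise not elementarily equivalent
(in particular, pairwise not isomorphic, i.e. in different orbits of `Sym(ℕ)`). -/
def PerfectlyManyTheories [L.IsRelational] (𝒞 : Set (Code L)) : Prop :=
  ∃ f : (ℕ → Bool) → Code L, Continuous f ∧ (∀ b, f b ∈ 𝒞) ∧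
    ∀ b b', b ≠ b' → ¬ @ElementarilyEquivalent L ℕ ℕ (str (f b)) (str (f b'))

/-- `𝒞` meets only countably many orbits of `Sym(ℕ)`, and all its members are cellular. -/
def CountableCellular [L.IsRelational] (𝒞 : Set (Code L)) : Prop :=
  (∃ g : ℕ → Code L, ∀ x ∈ 𝒞, ∃ n, ∃ e : Equiv.Perm ℕ, pull e (g n) = x) ∧
    ∀ x ∈ 𝒞, @Run7.h46.IsCellular L ℕ (str x)

open Run7.h46 Run7.h46.U in
theorem perfect_iff [L.IsRelational] {𝒞 : Set (Code L)}
    (h : ∃ f : (ℕ → Bool) → Pt L, Continuous f ∧ (∀ b, dec (f b) ∈ (dec '' 𝒞)) ∧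
      ∀ b b', b ≠ b' → ¬ EE (dec (f b)) (dec (f b'))) : PerfectlyManyTheories 𝒞 := by
  obtain ⟨f, h1, h2, h3⟩ := h
  refine ⟨f, h1, fun b => ?_, h3⟩
  obtain ⟨y, hy, hyb⟩ := h2 b
  have h4 : y = f b := by
    funext p
    have h5 := congrFun (congrFun hyb ⟨p.1, p.2.1⟩) p.2.2
    have h6 : (y p = true) = (f b p = true) := h5
    exact Bool.eq_iff_iff.2 (iff_of_eq h6)
  exact h4 ▸ hy

open Run7.h46 Run7.h46.U in
theorem dec_injective {x y : Code L} (h : dec x = dec y) : x = y := by
  funext p
  have h5 := congrFun (congrFun h ⟨p.1, p.2.1⟩) p.2.2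
  have h6 : (x p = true) = (y p = true) := h5
  exact Bool.eq_iff_iff.2 (iff_of_eq h6)

open Run7.h46 Run7.h46.U in
theorem mem_dec {𝒞 : Set (Code L)} : {x : Pt L | dec x ∈ dec '' 𝒞} = 𝒞 := by
  ext x
  constructor
  · rintro ⟨y, hy, hyx⟩
    exact dec_injective hyx ▸ hy
  · exact fun hx => ⟨x, hx, rfl⟩

open Run7.h46 Run7.h46.U in
theorem hered_dec {𝒞 : Set (Code L)} (h : Hereditary 𝒞) : Hered (dec '' 𝒞) := by
  rintro _ ⟨x, hx, rfl⟩ f hf
  exact ⟨pull f x, h x hx f hf, rfl⟩

open Run7.h46 Run7.h46.U in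
theorem countable_of [L.IsRelational] {𝒞 : Set (Code L)}
    (h : (∃ g : ℕ → Str L ℕ, ∀ A ∈ dec '' 𝒞, ∃ n, RIso A (g n)) ∧
      ∀ A ∈ dec '' 𝒞, @IsCellular L ℕ (toS A)) : CountableCellular 𝒞 := by
  obtain ⟨⟨g, hg⟩, h2⟩ := h
  refine ⟨⟨fun n => enc (g n), fun x hx => ?_⟩, fun x hx => h2 (dec x) ⟨x, hx, rfl⟩⟩
  obtain ⟨n, e, he⟩ := hg (dec x) ⟨x, hx, rfl⟩
  refine ⟨n, e, ?_⟩
  funext p
  have h3 : (x p = true) ↔ g n ⟨p.1, p.2.1⟩ (e ∘ p.2.2) := he ⟨p.1, p.2.1⟩ p.2.2
  rw [Bool.eq_iff_iff, h3]
  exact iff_of_eq (congrFun (congrFun (dec_enc (g n)) ⟨p.1, p.2.1⟩) (e ∘ p.2.2))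

open Run7.h46 Run7.h46.U in
/-- **Theorem.** Let `L` be a countable relational language whose relation symbols have arity at
most `r`.

(1) Every closed hereditary class of `L`-structures on `ℕ` either meets only countably many
isomorphism classes and has only cellular members, or contains a Cantor set of pairwise not
elementarily equivalent structures.

(2) The same holds for the class of all models (with universe `ℕ`) of any universal first-order
theory.

(3) The same holds for every Borel hereditary class all of whose members have only cellular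
reducts to finite sublanguages.

(4) If a Borel hereditary class contains no Cantor set of pairwise not elementarily equivalent
structures, then for each of its members `x` there is a finite set `s` of relation symbols such
that every bijection between `x` and a member of the class elementarily equivalent to `x` which
preserves and reflects the relations in `s` is an isomorphism. -/
theorem result (L : FirstOrder.Language.{0, 0}) [L.IsRelational]
    [Countable (Σ n, L.Relations n)] (r : ℕ) (hr : ∀ R : (Σ n, L.Relations n), R.1 ≤ r) :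
    (∀ 𝒞 : Set (Code L), IsClosed 𝒞 → Hereditary 𝒞 →
      CountableCellular 𝒞 ∨ PerfectlyManyTheories 𝒞) ∧
    (∀ T : L.Theory, T.IsUniversal →
      CountableCellular {x : Code L | @Theory.Model L ℕ (str x) T} ∨
      PerfectlyManyTheories {x : Code L | @Theory.Model L ℕ (str x) T}) ∧
    (∀ 𝒞 : Set (Code L), MeasurableSet 𝒞 → Hereditary 𝒞 →
      (∀ x ∈ 𝒞, ∀ s, @Run7.h46.IsCellular (sublanguage s) ℕ (reduct s x)) →
      CountableCellular 𝒞 ∨ PerfectlyManyTheories 𝒞) ∧
    (∀ 𝒞 : Set (Code L), MeasurableSet 𝒞 → Hereditary 𝒞 →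
      (∀ x ∈ 𝒞, ∃ s : Finset (Σ n, L.Relations n), ∀ y ∈ 𝒞,
        @ElementarilyEquivalent L ℕ ℕ (str x) (str y) → ∀ e : Equiv.Perm ℕ,
        (∀ R ∈ s, ∀ v : Fin R.1 → ℕ, x ⟨R.1, R.2, v⟩ = y ⟨R.1, R.2, e ∘ v⟩) →
        pull e y = x) ∨ PerfectlyManyTheories 𝒞) := by
  have closed : ∀ 𝒞 : Set (Code L), IsClosed 𝒞 → Hereditary 𝒞 →
      CountableCellular 𝒞 ∨ PerfectlyManyTheories 𝒞 := by
    intro 𝒞 h1 h2
    have h3 : IsClosed {x : Pt L | dec x ∈ dec '' 𝒞} := by
      rw [mem_dec]
      exact h1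
    rcases main_closed hr (hered_dec h2) h3 with h | h
    · exact Or.inl (countable_of h)
    · exact Or.inr (perfect_iff h)
  refine ⟨closed, fun T hT => ?_, fun 𝒞 h1 h2 h4 => ?_, fun 𝒞 h1 h2 => ?_⟩
  · exact closed _ (closed_models T hT) fun x hx f hf => hered_models T hT (dec x) hx f hf
  · have h3 : MeasurableSet {x : Pt L | dec x ∈ dec '' 𝒞} := by
      rw [mem_dec]
      exact h1
    have h5 : ∀ A ∈ dec '' 𝒞, ∀ s, @IsCellular (sub s) ℕ (toS (red s A)) := by
      rintro _ ⟨x, hx, rfl⟩ s
      obtain ⟨n, k, K, c, g1, g2, g3, g4, g5⟩ := h4 x hx s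
      refine ⟨n, k, K, c, g1, g2, g3, g4, fun i σ => ?_⟩
      obtain ⟨g, g6, g7⟩ := g5 i σ
      let g0 : Equiv.Perm ℕ := @FirstOrder.Language.Equiv.toEquiv (sublanguage s) ℕ ℕ
        (reduct s x) (reduct s x) g
      refine ⟨@FirstOrder.Language.Equiv.mk (sub s) ℕ ℕ (toS (red s (dec x)))
        (toS (red s (dec x))) g0 (fun f _ => isEmptyElim f)
        (fun {n} R v => @FirstOrder.Language.Equiv.map_rel' (sublanguage s) ℕ ℕ
          (reduct s x) (reduct s x) g n R v), g6, g7⟩
    rcases main_borel hr (hered_dec h2) h3 h5 with h | h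
    · exact Or.inl (countable_of h)
    · exact Or.inr (perfect_iff h)
  · have h3 : MeasurableSet {x : Pt L | dec x ∈ dec '' 𝒞} := by
      rw [mem_dec]
      exact h1
    rcases main_reduct hr (hered_dec h2) h3 with h | h
    · left
      intro x hx
      obtain ⟨s, hs⟩ := h (dec x) ⟨x, hx, rfl⟩
      refine ⟨s, fun y hy hxy e he => ?_⟩
      have h4 := hs (dec y) ⟨y, hy, rfl⟩ hxy e fun R hR v => by
        show x ⟨R.1, R.2, v⟩ = true ↔ y ⟨R.1, R.2, e ∘ v⟩ = true
        rw [he R hR v]
      funext p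
      have h5 : (x p = true) ↔ y ⟨p.1, p.2.1, e ∘ p.2.2⟩ = true := h4 ⟨p.1, p.2.1⟩ p.2.2
      exact (Bool.eq_iff_iff.2 h5).symm
    · exact Or.inr (perfect_iff h)

end Pool.Agent.Results.MP_5607ba_lc.HereditaryClasses
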