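import Pool.Agent.Run7.h653.MD.PosS
import Pool.Agent.Run7.h653.MD.PosH1
import Pool.Agent.Run7.h653.MD.PosG
import Pool.Agent.Run7.h653.MD.Act

set_option autoImplicit false

/-!
# The countable-or-perfect dichotomy for hereditary classes of graphs which are not monadically
# dependent

Every hereditary class of finite graphs is given by forbidden finite induced subgraphs `H i`. If the
class is not monadically dependent, then the countable graphs without induced subgraphs `H i` are
faithfully complete, and the countable-or-perfect dichotomy for the Polish group `S_∞` of all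
permutations of `ℕ`, for all Borel actions of this group, is equivalent to the dichotomy for the
natural action of `S_∞` on the space of these graphs.

Monadic dependence is defined by the combinatorial characterisation of Dreier, Mählmann and
Toruńczyk (STOC 2024): for every `r ≥ 1`, the class does not contain arbitrarily large flipped
`r`-crossings or comparability grids.
-/

namespace Pool.Agent.Results.MP_5607ba_lc.NotMonadicallyDependent

/-! ### Crossings and comparability grids -/

/-- The three kinds of crossings: star crossings, clique crossings and half-graph crossings. -/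
inductive Kind
  | star
  | clique
  | half

/-- The vertices of the `r`-crossing over the linear order `ι` (for order `k`: `ι = Fin k`): the
roots `a i` and `b j`, and the paths `p i j 0, ..., p i j (r - 1)` for all `i` and `j`. -/
inductive Vtx (ι : Type) (r : ℕ)
  | a (i : ι)
  | b (j : ι)
  | p (i j : ι) (l : Fin r)

/-- The `r + 2` layers: all roots `a i`; all `l`-th vertices of the paths; all roots `b j`. -/
def Vtx.layer {ι : Type} {r : ℕ} : Vtx ι r → Fin (r + 2)
  | .a _ => 0
  | .b _ => Fin.last (r + 1)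
  | .p _ _ l => ⟨l.val + 1, by omega⟩

/-- The edges of the crossings (each edge in one direction). Star crossings: `a i` is adjacent to
`p i j 0`, `b j` to `p i j (r - 1)`, and `p i j 0, ..., p i j (r - 1)` is a path. Clique crossings:
in addition, all neighbours of a root are adjacent to each other. Half-graph crossings: `a i` is
adjacent to `p i' j 0` for all `i ≤ i'`, and `b j` to `p i j' (r - 1)` for all `j ≤ j'`. -/
def Edge {ι : Type} [LinearOrder ι] {r : ℕ} (κ : Kind) : Vtx ι r → Vtx ι r → Prop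
  | .a i, .p i' _ l => l.val = 0 ∧ (i = i' ∨ (κ = Kind.half ∧ i < i'))
  | .b j, .p _ j' l => l.val + 1 = r ∧ (j = j' ∨ (κ = Kind.half ∧ j < j'))
  | .p i j l, .p i' j' l' => (i = i' ∧ j = j' ∧ l.val + 1 = l'.val) ∨
      (κ = Kind.clique ∧ ((l.val = 0 ∧ l'.val = 0 ∧ i = i' ∧ j ≠ j') ∨
        (l.val + 1 = r ∧ l'.val + 1 = r ∧ j = j' ∧ i ≠ i')))
  | _, _ => False

/-- The crossing, layerwise flipped: the adjacency of two different vertices is reversed if the pair
of their layers belongs to `F`. -/
def crossing (κ : Kind) (ι : Type) [LinearOrder ι] (r : ℕ) (F : Set (Sym2 (Fin (r + 2)))) :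
    SimpleGraph (Vtx ι r) where
  Adj u v := u ≠ v ∧ Xor (Edge κ u v ∨ Edge κ v u) (s(u.layer, v.layer) ∈ F)
  symm := ⟨by
    rintro u v ⟨h1, h2⟩
    refine ⟨h1.symm, ?_⟩
    rw [or_comm, Sym2.eq_swap]
    exact h2⟩
  loopless := ⟨fun u h => h.1 rfl⟩

/-- The comparability grid: the pairs `(i, j)` and `(i', j')` are adjacent if `i = i'` or `j = j'` or
`i < i' ↔ j < j'`. -/
def compGrid (ι : Type) [LinearOrder ι] : SimpleGraph (ι × ι) :=
  SimpleGraph.fromRel fun u v => u.1 = v.1 ∨ u.2 = v.2 ∨ (u.1 < v.1 ↔ u.2 < v.2)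

/-- The hereditary class of graphs given by the forbidden induced subgraphs `H i` is monadically
dependent (in the combinatorial form): for every `r ≥ 1` there is an order `k` such that all flipped
`r`-crossings of order `k` and the comparability grid of order `k` contain an induced subgraph
`H i`, that is, do not belong to the class. -/
def MonadicallyDependent {I : Type} {V : I → Type} (H : ∀ i, SimpleGraph (V i)) : Prop :=
  ∀ r, 1 ≤ r → ∃ k : ℕ,
    (∀ (κ : Kind) (F : Set (Sym2 (Fin (r + 2)))), ∃ i, Nonempty (H i ↪g crossing κ (Fin k) r F)) ∧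
    ∃ i, Nonempty (H i ↪g compGrid (Fin k))

/-! ### Structures and graphs on the natural numbers -/

/-- Relational structures on `ℕ` with relations of arities `a 0, a 1, ...`. -/
abbrev Str (a : ℕ → ℕ) : Type := (i : ℕ) → (Fin (a i) → ℕ) → Bool

/-- Isomorphism of structures. -/
def Iso {a : ℕ → ℕ} (x y : Str a) : Prop :=
  ∃ σ : Equiv.Perm ℕ, ∀ (i : ℕ) (v : Fin (a i) → ℕ), y i (⇑σ ∘ v) = x i v

/-- Binary relations on `ℕ`. -/
abbrev Rel : Type := ℕ → ℕ → Bool

/-- Isomorphism of binary relations: they are in one orbit of `S_∞`. -/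
def RelIso (x y : Rel) : Prop := ∃ σ : Equiv.Perm ℕ, ∀ m n, y (σ m) (σ n) = x m n

/-- The relation is a graph on `ℕ` without induced subgraphs `H i`. (`H i ↪g G` is the type of the
isomorphisms of `H i` onto induced subgraphs of `G`.) -/
structure Free {I : Type} {V : I → Type} (H : ∀ i, SimpleGraph (V i)) (y : Rel) : Prop where
  irrefl : ∀ u, y u u = false
  symm : ∀ u v, y u v = true → y v u = true
  free : ∀ i, IsEmpty (H i ↪g SimpleGraph.fromRel fun u v => y u v = true)

/-- `K` is faithfully complete: for every invariant Borel class `B` of structures (in any countable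
relational language) there are an invariant Borel class `B'` of members of `K` and a Borel map `F`
from `B'` to `B` that induces a bijection of the isomorphism types. -/
def FaithfullyComplete (K : Rel → Prop) : Prop :=
  ∀ (a : ℕ → ℕ) (B : Set (Str a)), MeasurableSet B → (∀ x y, Iso x y → (x ∈ B ↔ y ∈ B)) →
    ∃ (B' : Set Rel) (F : Rel → Str a), MeasurableSet B' ∧
      (∀ y z, RelIso y z → (y ∈ B' ↔ z ∈ B')) ∧ (∀ y ∈ B', K y) ∧ Measurable F ∧
      (∀ y ∈ B', F y ∈ B) ∧ (∀ y ∈ B', ∀ z ∈ B', RelIso y z ↔ Iso (F y) (F z)) ∧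
      ∀ x ∈ B, ∃ y ∈ B', Iso x (F y)

/-! ### The dichotomy -/

/-- The set `B` meets countably many classes of `E`, or it contains perfectly many classes. -/
def CountableOrPerfect {X : Type} [MeasurableSpace X] (E : X → X → Prop) (B : Set X) : Prop :=
  (∃ S : Set X, S.Countable ∧ ∀ x ∈ B, ∃ s ∈ S, E s x) ∨
  (∃ c : (ℕ → Bool) → X, Measurable c ∧ (∀ α, c α ∈ B) ∧ ∀ α β, α ≠ β → ¬ E (c α) (c β))

/-- The Borel sets of the Polish group `S_∞` of all permutations of `ℕ` (with the topology of
pointwise convergence). -/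
@[reducible] def permBorel : MeasurableSpace (Equiv.Perm ℕ) :=
  MeasurableSpace.generateFrom {U | ∃ i j : ℕ, U = {σ : Equiv.Perm ℕ | σ i = j}}

/-- The question for the group `S_∞`: in every standard Borel space with a Borel action of `S_∞`
there are countably many or perfectly many orbits. -/
def DichotomyForPermutations : Prop :=
  ∀ (X : Type) [MeasurableSpace X] [StandardBorelSpace X] [MulAction (Equiv.Perm ℕ) X],
    @Measurable _ _ (permBorel.prod inferInstance) _ (fun p : Equiv.Perm ℕ × X => p.1 • p.2) →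
    CountableOrPerfect (fun x y : X => ∃ σ : Equiv.Perm ℕ, σ • x = y) Set.univ

/-- The dichotomy for all invariant Borel sets of graphs in `K`. -/
def DichotomyFor (K : Rel → Prop) : Prop :=
  ∀ B : Set Rel, MeasurableSet B → (∀ x y, RelIso x y → (x ∈ B ↔ y ∈ B)) → (∀ y ∈ B, K y) →
    CountableOrPerfect RelIso B

/-! ### Proofs -/

section

open Pool.Agent.Run7.h653

private def tk : Kind → MD.Kind
  | .star => .star
  | .clique => .clique
  | .half => .half

private theorem tk_surj (κ : MD.Kind) : ∃ κ', tk κ' = κ := by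
  cases κ
  · exact ⟨.star, rfl⟩
  · exact ⟨.clique, rfl⟩
  · exact ⟨.half, rfl⟩

private theorem tk_half (κ : Kind) : tk κ = MD.Kind.half ↔ κ = Kind.half := by
  cases κ <;> simp [tk]

private theorem tk_clique (κ : Kind) : tk κ = MD.Kind.clique ↔ κ = Kind.clique := by
  cases κ <;> simp [tk]

private def tv {ι : Type} {r : ℕ} : Vtx ι r → MD.Vtx ι r
  | .a i => .a i
  | .b i => .b i
  | .p i j l => .p i j l

private theorem tv_inj {ι : Type} {r : ℕ} {u v : Vtx ι r} : tv u = tv v ↔ u = v := by
  cases u <;> cases v <;> simp [tv]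

private theorem tv_surj {ι : Type} {r : ℕ} (u : MD.Vtx ι r) : ∃ v, tv v = u := by
  cases u with
  | a i => exact ⟨.a i, rfl⟩
  | b i => exact ⟨.b i, rfl⟩
  | p i j l => exact ⟨.p i j l, rfl⟩

private theorem tv_layer {ι : Type} {r : ℕ} (u : Vtx ι r) : (tv u).layer = u.layer := by
  cases u <;> rfl

private theorem tv_edge {ι : Type} [LinearOrder ι] {r : ℕ} (κ : Kind) (u v : Vtx ι r) :
    MD.Edge (tk κ) (tv u) (tv v) ↔ Edge κ u v := by
  cases u <;> cases v <;> simp [tv, MD.Edge, Edge, tk_half, tk_clique]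

private theorem cross_iff {W : Type} {G : SimpleGraph W} {ι : Type} [LinearOrder ι] {r : ℕ}
    {κ : Kind} {F : Set (Sym2 (Fin (r + 2)))} :
    Nonempty (G ↪g crossing κ ι r F) ↔ Nonempty (G ↪g MD.crossing (tk κ) ι r F) := by
  have key : ∀ u v : Vtx ι r, (MD.crossing (tk κ) ι r F).Adj (tv u) (tv v) ↔
      (crossing κ ι r F).Adj u v := by
    intro u v
    show (tv u ≠ tv v ∧ Xor (MD.Edge (tk κ) (tv u) (tv v) ∨ MD.Edge (tk κ) (tv v) (tv u))
      (s((tv u).layer, (tv v).layer) ∈ F)) ↔ (u ≠ v ∧ Xor (Edge κ u v ∨ Edge κ v u)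
      (s(u.layer, v.layer) ∈ F))
    rw [Ne, tv_inj, tv_edge, tv_edge, tv_layer, tv_layer]
  let e : Vtx ι r ≃ MD.Vtx ι r := Equiv.ofBijective tv ⟨fun u v h => tv_inj.1 h, tv_surj⟩
  let f : crossing κ ι r F ≃g MD.crossing (tk κ) ι r F := ⟨e, fun {u v} => key u v⟩
  exact ⟨fun ⟨g⟩ => ⟨g.trans f.toRelEmbedding⟩, fun ⟨g⟩ => ⟨g.trans f.symm.toRelEmbedding⟩⟩

private theorem grid_eq (ι : Type) [LinearOrder ι] : compGrid ι = MD.compGrid ι := by
  ext u v
  rw [compGrid, SimpleGraph.fromRel_adj]
  constructor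
  · rintro ⟨h, h1 | h1⟩
    · exact ⟨h, h1⟩
    · exact SimpleGraph.Adj.symm (⟨h.symm, h1⟩ : (MD.compGrid ι).Adj v u)
  · rintro ⟨h, h1⟩
    exact ⟨h, Or.inl h1⟩

private theorem finite_kind : Finite Kind := by
  refine Finite.of_surjective (fun n : Fin 3 => if n = 0 then Kind.star else
    if n = 1 then Kind.clique else Kind.half) ?_
  intro κ
  cases κ
  · exact ⟨0, rfl⟩
  · exact ⟨1, rfl⟩
  · exact ⟨2, rfl⟩

/-- one of the infinite patterns contains no `H i` -/
private theorem pattern {I : Type} {V : I → Type} (hV : ∀ i, Finite (V i))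
    (H : ∀ i, SimpleGraph (V i)) (h : ¬ MonadicallyDependent H) :
    (∃ r, 1 ≤ r ∧ ∃ (κ : MD.Kind) (F : Set (Sym2 (Fin (r + 2)))),
      ∀ i, IsEmpty (H i ↪g MD.crossing κ ℚ r F)) ∨ ∀ i, IsEmpty (H i ↪g MD.compGrid ℚ) := by
  by_contra hcon
  push Not at hcon
  obtain ⟨h1, i0, ⟨e0⟩⟩ := hcon
  have := hV i0
  obtain ⟨k0, hk0⟩ := MD.grid_fin e0
  apply h
  intro r hr
  have h2 : ∀ q : Kind × Set (Sym2 (Fin (r + 2))), ∃ k i,
      Nonempty (H i ↪g MD.crossing (tk q.1) (Fin k) r q.2) := by
    rintro ⟨κ, F⟩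
    obtain ⟨i, ⟨e⟩⟩ := h1 r hr (tk κ) F
    have := hV i
    obtain ⟨k, hk⟩ := MD.emb_fin e
    exact ⟨k, i, hk⟩
  choose k i hki using h2
  have := finite_kind
  obtain ⟨K, hK⟩ := (Set.finite_range k).bddAbove
  refine ⟨max K k0, fun κ F => ⟨i (κ, F), cross_iff.2 (MD.emb_mono ?_ (hki (κ, F)))⟩, i0, ?_⟩
  · exact (hK ⟨(κ, F), rfl⟩).trans (le_max_left _ _)
  · rw [grid_eq]
    exact MD.grid_mono (le_max_right _ _) hk0

private theorem free_of {I : Type} {V : I → Type} {H : ∀ i, SimpleGraph (V i)} {W : Type}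
    {G : SimpleGraph W} (hG : ∀ i, IsEmpty (H i ↪g G)) {y : Rel} {pos : ℕ → W}
    (hp : Function.Injective pos) (hy : ∀ u v, y u v = true ↔ G.Adj (pos u) (pos v)) :
    Free H y := by
  refine ⟨fun u => ?_, fun u v => ?_, fun i => ⟨fun e => ?_⟩⟩
  · have : ¬ y u u = true := by
      rw [hy]
      exact G.loopless.1 _
    simpa using this
  · rw [hy, hy]
    exact fun h => h.symm
  · refine (hG i).false (e.trans ⟨⟨pos, hp⟩, fun {u v} => ?_⟩)
    show G.Adj (pos u) (pos v) ↔ _
    rw [SimpleGraph.fromRel_adj]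
    constructor
    · intro h
      refine ⟨?_, Or.inl ((hy _ _).2 h)⟩
      rintro rfl
      exact G.loopless.1 _ h
    · rintro ⟨-, h | h⟩
      · exact (hy _ _).1 h
      · exact ((hy _ _).1 h).symm

private theorem complete {I : Type} {V : I → Type} (hV : ∀ i, Finite (V i))
    (H : ∀ i, SimpleGraph (V i)) (h : ¬ MonadicallyDependent H) : FaithfullyComplete (Free H) := by
  rcases pattern hV H h with ⟨r, hr, κ, F, hF⟩ | hG
  · have h1 : W889.VC.Faithful W889.VC.BIso (MD.InCross κ r F) := by
      by_cases hκ : κ = MD.Kind.half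
      · subst hκ
        exact MD.faithful_half hr F
      · exact MD.faithful_star_clique hr hκ F
    exact h1.mono fun y hy => by
      obtain ⟨pos, hp, hy⟩ := hy
      exact free_of hF hp hy
  · exact MD.faithful_grid.mono fun y hy => by
      obtain ⟨pos, hp, hy⟩ := hy
      exact free_of hG hp hy

private theorem vc_of {K : Rel → Prop} (h : DichotomyFor K) :
    W889.VC.VCof True W889.VC.BIso K := by
  intro B hB hinv hK
  rcases h B hB hinv hK with ⟨S, hS, h1⟩ | ⟨c, h1, h2, h3⟩
  · left
    rcases S.eq_empty_or_nonempty with rfl | hne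
    · refine ⟨fun _ _ _ => false, fun x hx => ?_⟩
      obtain ⟨s, hs, -⟩ := h1 x hx
      exact absurd hs (Set.notMem_empty s)
    · obtain ⟨f, hf⟩ := hS.exists_eq_range hne
      refine ⟨f, fun x hx => ?_⟩
      obtain ⟨s, hs, hsx⟩ := h1 x hx
      rw [hf] at hs
      obtain ⟨n, rfl⟩ := hs
      exact ⟨n, hsx⟩
  · right
    obtain ⟨g, hg, hc⟩ := W889.VC.cont_of_meas h1
    exact ⟨c ∘ g, fun _ => hc, fun a => h2 _, fun a b hab => hg (by_contra fun hne => h3 _ _ hne hab)⟩

private theorem all_of {K : Rel → Prop} (h : DichotomyForPermutations) : DichotomyFor K := by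
  intro B hB hinv _
  let _ := MD.relAct B hinv
  have : StandardBorelSpace B := hB.standardBorel
  have horb : ∀ x y : B, (∃ σ : Equiv.Perm ℕ, σ • x = y) ↔ RelIso x.1 y.1 := by
    intro x y
    constructor
    · rintro ⟨σ, rfl⟩
      refine ⟨σ, fun m n => ?_⟩
      show x.1 (σ.symm (σ m)) (σ.symm (σ n)) = x.1 m n
      rw [σ.symm_apply_apply, σ.symm_apply_apply]
    · rintro ⟨σ, h⟩
      refine ⟨σ, Subtype.ext ?_⟩
      funext m n
      show x.1 (σ.symm m) (σ.symm n) = y.1 m n
      rw [← h, σ.apply_symm_apply, σ.apply_symm_apply]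
  rcases h B (MD.meas_relAct B hinv) with ⟨S, hS, h1⟩ | ⟨c, h1, -, h3⟩
  · left
    refine ⟨Subtype.val '' S, hS.image _, fun x hx => ?_⟩
    obtain ⟨s, hs, h2⟩ := h1 ⟨x, hx⟩ trivial
    exact ⟨s.1, ⟨s, hs, rfl⟩, (horb s ⟨x, hx⟩).1 h2⟩
  · right
    refine ⟨fun a => (c a).1, measurable_subtype_coe.comp h1, fun a => (c a).2, fun a b hab hE => ?_⟩
    exact h3 a b hab ((horb _ _).2 hE)

/-- **Theorem.** Let `H i` be finite graphs such that the class of the graphs without induced
subgraphs `H i` is not monadically dependent. Then the countable graphs without induced subgraphs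
`H i` are faithfully complete, and the countable-or-perfect dichotomy for all invariant Borel sets of
these graphs is equivalent to the dichotomy for all Borel actions of `S_∞`. -/
theorem result {I : Type} {V : I → Type} (hV : ∀ i, Finite (V i)) (H : ∀ i, SimpleGraph (V i))
    (h : ¬ MonadicallyDependent H) :
    FaithfullyComplete (Free H) ∧ (DichotomyFor (Free H) ↔ DichotomyForPermutations) := by
  have h1 := complete hV H h
  refine ⟨h1, fun h2 => ?_, fun h2 => all_of h2⟩
  have h3 : ∀ a, W889.VC.VCof True (W889.VC.Iso (a := a)) (fun _ => True) :=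
    W889.VC.Faithful.vaught (E := W889.VC.BIso) h1 True (vc_of h2)
  intro X _ _ _ hm
  rcases MD.dich_act h3 X hm with ⟨S, hS, h4⟩ | ⟨c, h4, h5⟩
  · exact Or.inl ⟨S, hS, fun x _ => h4 x⟩
  · exact Or.inr ⟨c, h4, fun _ => trivial, fun a b hab hE => hab (h5 a b hE)⟩

end

end Pool.Agent.Results.MP_5607ba_lc.NotMonadicallyDependent
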